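import Mathlib

/-!
# MP_04f010_co: graphs with a free action of a finite abelian group

A *twin pair* consists of two cycles with the same vertices and no common edge.  If a finite
abelian group `A` acts on a graph by automorphisms, then seven group elements which move `y` to a
neighbour of `x` and have `128` different subset products (modulo the stabilizers) give a copy of
the middle levels graph `B(7; 3, 4)`, which has two edge-disjoint Hamilton cycles.
-/

set_option autoImplicit false

namespace TwinSym

open scoped Pointwise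

/-- two cycles of `G` with the same vertices and without a common edge; a cycle of length `k + 3`
is given by its vertices `c 0, c 1, …, c (k + 2)`, which are different, consecutive ones
(cyclically) being adjacent -/
def TwinPair {V : Type*} (G : SimpleGraph V) : Prop :=
  ∃ (k : ℕ) (c d : Fin (k + 3) → V), Function.Injective c ∧ Function.Injective d ∧
    (∀ i, G.Adj (c i) (c (i + 1))) ∧ (∀ i, G.Adj (d i) (d (i + 1))) ∧
    Set.range c = Set.range d ∧ ∀ i j, s(c i, c (i + 1)) ≠ s(d j, d (j + 1))

def lC : List ℕ :=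
  [7, 15, 13, 45, 41, 43, 11, 27, 26, 90, 88, 92, 28, 30, 22, 54, 38, 102, 98, 106, 42, 58,
   50, 114, 82, 86, 70, 71, 67, 99, 97, 113, 112, 116, 84, 85, 69, 77, 76, 108, 100, 101, 37,
   39, 35, 51, 49, 57, 56, 120, 104, 105, 73, 75, 74, 78, 14, 46, 44, 60, 52, 53, 21, 29, 25,
   89, 81, 83, 19, 23]

def lD : List ℕ :=
  [7, 39, 38, 46, 42, 43, 35, 99, 98, 114, 112, 120, 88, 89, 73, 77, 13, 29, 28, 60, 56, 58,
   26, 30, 14, 15, 11, 75, 67, 83, 82, 90, 74, 106, 104, 108, 44, 45, 37, 53, 49, 113, 81, 85,
   21, 23, 22, 86, 84, 92, 76, 78, 70, 102, 100, 116, 52, 54, 50, 51, 19, 27, 25, 57, 41, 105,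
   97, 101, 69, 71]

def pC : List ℕ :=
  [0, 0, 0, 0, 0, 0, 0, 0, 0, 0, 0, 6, 0, 2, 56, 1, 0, 0, 0, 68, 0, 62, 14, 69, 0, 64, 8, 7,
   12, 63, 13, 0, 0, 0, 0, 44, 0, 42, 16, 43, 0, 4, 20, 5, 58, 3, 57, 0, 0, 46, 22, 45, 60,
   61, 15, 0, 48, 47, 21, 0, 59, 0, 0, 0, 0, 0, 0, 28, 0, 36, 26, 27, 0, 52, 54, 53, 38, 37,
   55, 0, 0, 66, 24, 67, 34, 35, 25, 0, 10, 65, 9, 0, 11, 0, 0, 0, 0, 30, 18, 29, 40, 41, 17,
   0, 50, 51, 19, 0, 39, 0, 0, 0, 32, 31, 23, 0, 33, 0, 0, 0, 49, 0, 0, 0, 0, 0, 0, 0]

def pD : List ℕ :=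
  [0, 0, 0, 0, 0, 0, 0, 0, 0, 0, 0, 26, 0, 16, 24, 25, 0, 0, 0, 60, 0, 44, 46, 45, 0, 62, 22,
   61, 18, 17, 23, 0, 0, 0, 0, 6, 0, 38, 2, 1, 0, 64, 4, 5, 36, 37, 3, 0, 0, 40, 58, 59, 56,
   39, 57, 0, 20, 63, 21, 0, 19, 0, 0, 0, 0, 0, 0, 28, 0, 68, 52, 69, 0, 14, 32, 27, 50, 15,
   51, 0, 0, 42, 30, 29, 48, 43, 47, 0, 12, 13, 31, 0, 49, 0, 0, 0, 0, 66, 8, 7, 54, 67, 53,
   0, 34, 65, 33, 0, 35, 0, 0, 0, 10, 41, 9, 0, 55, 0, 0, 0, 11, 0, 0, 0, 0, 0, 0, 0]

def eD : List ℕ :=
  [935, 967, 1423, 1483, 1693, 1741, 1807, 1822, 2459, 2483, 2711, 2773, 2839, 2902, 3227,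
   3257, 3358, 3386, 3613, 3644, 4523, 4579, 4781, 4789, 4903, 4910, 5305, 5353, 5419, 5422,
   5677, 5740, 6325, 6385, 6451, 6454, 6710, 6772, 7226, 7228, 8651, 8659, 8903, 8933, 9038,
   9062, 9421, 9433, 9562, 9578, 9806, 9820, 10453, 10481, 10579, 10586, 10838, 10844, 11353,
   11384, 12517, 12521, 12643, 12658, 12902, 12916, 13418, 13420, 14450, 14456]


/-- the number of ones among the first seven binary digits -/
def pc (m : ℕ) : ℕ := ((List.range 7).filter fun i => m.testBit i).length

/-- `v` arises from `u`, which has three ones, by changing a zero into a one -/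
def Up (u v : ℕ) : Prop :=
  pc u = 3 ∧ pc v ≠ 3 ∧ ∃ j : Fin 7, u.testBit j = false ∧
    ∀ i : Fin 7, v.testBit i = (u.testBit i || decide (i = j))

instance (u v : ℕ) : Decidable (Up u v) := by unfold Up; infer_instance

/-- symmetric code of a pair -/
def enc (u v : ℕ) : ℕ := min u v * 128 + max u v

def cf (i : Fin 70) : ℕ := lC.getD i 0
def df (i : Fin 70) : ℕ := lD.getD i 0

lemma cf_lt : ∀ i : Fin 70, cf i < 128 := by decide +kernel
lemma df_lt : ∀ i : Fin 70, df i < 128 := by decide +kernel
lemma cf_pos : ∀ i : Fin 70, pC.getD (cf i) 0 = i := by decide +kernel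
lemma df_pos : ∀ i : Fin 70, pD.getD (df i) 0 = i := by decide +kernel
lemma cf_adj : ∀ i : Fin 70, Up (cf i) (cf (i + 1)) ∨ Up (cf (i + 1)) (cf i) := by decide +kernel
lemma df_adj : ∀ i : Fin 70, Up (df i) (df (i + 1)) ∨ Up (df (i + 1)) (df i) := by decide +kernel
lemma cf_mem : ∀ i : Fin 70, ∃ j : Fin 70, df j = cf i := by decide +kernel
lemma df_mem : ∀ i : Fin 70, ∃ j : Fin 70, cf j = df i := by decide +kernel
lemma enc_df : ∀ j : Fin 70, enc (df j) (df (j + 1)) ∈ eD := by decide +kernel
lemma enc_cf : ∀ i : Fin 70, enc (cf i) (cf (i + 1)) ∉ eD := by decide +kernel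

lemma enc_comm (u v : ℕ) : enc u v = enc v u := by
  unfold enc
  rw [min_comm, max_comm]

lemma cf_inj {i j : Fin 70} (h : cf i = cf j) : i = j := by
  apply Fin.ext
  rw [← cf_pos i, ← cf_pos j, h]

lemma df_inj {i j : Fin 70} (h : df i = df j) : i = j := by
  apply Fin.ext
  rw [← df_pos i, ← df_pos j, h]

/-- a map of the middle levels graph into a graph gives a twin pair -/
theorem twin_of_map {V : Type*} (G : SimpleGraph V) (f : ℕ → V)
    (hinj : ∀ u v, u < 128 → v < 128 → f u = f v → u = v)
    (hadj : ∀ u v, Up u v → G.Adj (f u) (f v)) : TwinPair G := by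
  refine ⟨67, fun i => f (cf i), fun i => f (df i), ?_, ?_, ?_, ?_, ?_, ?_⟩
  · intro i j h
    exact cf_inj (hinj _ _ (cf_lt i) (cf_lt j) h)
  · intro i j h
    exact df_inj (hinj _ _ (df_lt i) (df_lt j) h)
  · intro i
    rcases cf_adj i with h | h
    · exact hadj _ _ h
    · exact (hadj _ _ h).symm
  · intro i
    rcases df_adj i with h | h
    · exact hadj _ _ h
    · exact (hadj _ _ h).symm
  · ext w
    constructor
    · rintro ⟨i, rfl⟩
      obtain ⟨j, hj⟩ := cf_mem i
      exact ⟨j, by simp only [hj]⟩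
    · rintro ⟨i, rfl⟩
      obtain ⟨j, hj⟩ := df_mem i
      exact ⟨j, by simp only [hj]⟩
  · intro i j h
    rw [Sym2.eq_iff] at h
    apply enc_cf i
    rcases h with ⟨h1, h2⟩ | ⟨h1, h2⟩
    · rw [hinj _ _ (cf_lt _) (df_lt _) h1, hinj _ _ (cf_lt _) (df_lt _) h2]
      exact enc_df j
    · rw [hinj _ _ (cf_lt _) (df_lt _) h1, hinj _ _ (cf_lt _) (df_lt _) h2, enc_comm]
      exact enc_df j

section greedy
variable {A : Type*} [CommGroup A]

/-- subset products -/
def pr {k : ℕ} (s : Fin k → A) (a : Fin k → Bool) : A := ∏ i, if a i then s i else 1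

lemma pr_cons {k : ℕ} (t : A) (s : Fin k → A) (a : Fin (k + 1) → Bool) :
    pr (Fin.cons t s) a = (if a 0 then t else 1) * pr s (fun i => a i.succ) := by
  unfold pr
  rw [Fin.prod_univ_succ]
  simp

/-- `k` elements of `S` such that no quotient of two different subset products lies in `B` -/
theorem greedy [DecidableEq A] (B : Finset A) (hBi : ∀ b ∈ B, b⁻¹ ∈ B)
    (S : Finset A) : ∀ k : ℕ, (∀ j < k, 3 ^ j * B.card < S.card) →
    ∃ s : Fin k → A, (∀ i, s i ∈ S) ∧ (∃ D : Finset A, D.card ≤ 3 ^ k ∧
      ∀ a b, pr s a * (pr s b)⁻¹ ∈ D) ∧ ∀ a b, pr s a * (pr s b)⁻¹ ∈ B → a = b := by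
  intro k
  induction k with
  | zero =>
    intro _
    refine ⟨Fin.elim0, fun i => i.elim0, ⟨{1}, by simp, ?_⟩, ?_⟩
    · intro a b
      simp [pr]
    · intro a b _
      exact Subsingleton.elim _ _
  | succ k ih =>
    intro hS
    obtain ⟨s, hs, ⟨D, hD, hDm⟩, hinj⟩ := ih fun j hj => hS j (by omega)
    obtain ⟨t, htS, htD⟩ : ∃ t ∈ S, t ∉ D * B := by
      refine Finset.exists_mem_notMem_of_card_lt_card
        (lt_of_le_of_lt (Finset.card_mul_le.trans (Nat.mul_le_mul_right _ hD))
          (hS k (by omega)))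
    have hkey : ∀ a b : Fin k → Bool, t * pr s a * (pr s b)⁻¹ ∈ B → False := by
      intro a b h
      apply htD
      rw [Finset.mem_mul]
      refine ⟨_, hDm b a, _, h, ?_⟩
      rw [mul_comm, mul_assoc, mul_assoc, ← mul_assoc ((pr s b)⁻¹), inv_mul_cancel, one_mul,
        mul_inv_cancel, mul_one]
    refine ⟨Fin.cons t s, ?_, ⟨D ∪ D.image (t * ·) ∪ D.image (t⁻¹ * ·), ?_, ?_⟩, ?_⟩
    · intro i
      refine Fin.cases ?_ ?_ i
      · simpa using htS
      · intro j
        simpa using hs j
    · have h1 := Finset.card_union_le (D ∪ D.image (t * ·)) (D.image (t⁻¹ * ·))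
      have h2 := Finset.card_union_le D (D.image (t * ·))
      have h3 : (D.image (t * ·)).card ≤ D.card := Finset.card_image_le
      have h4 : (D.image (t⁻¹ * ·)).card ≤ D.card := Finset.card_image_le
      rw [pow_succ]
      omega
    · intro a b
      rw [pr_cons, pr_cons]
      have h := hDm (fun i => a i.succ) (fun i => b i.succ)
      simp only [Finset.mem_union, Finset.mem_image]
      by_cases ha : a 0 = true <;> by_cases hb : b 0 = true
      · rw [if_pos ha, if_pos hb]
        refine Or.inl (Or.inl ?_)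
        have : t * pr s (fun i => a i.succ) * (t * pr s fun i => b i.succ)⁻¹ =
            pr s (fun i => a i.succ) * (pr s fun i => b i.succ)⁻¹ := by
          rw [mul_inv]
          rw [mul_mul_mul_comm, mul_inv_cancel, one_mul]
        rw [this]
        exact h
      · rw [if_pos ha, if_neg hb]
        refine Or.inl (Or.inr ⟨_, h, ?_⟩)
        rw [one_mul, mul_assoc]
      · rw [if_neg ha, if_pos hb]
        refine Or.inr ⟨_, h, ?_⟩
        rw [one_mul, mul_inv]
        exact mul_left_comm _ _ _
      · rw [if_neg ha, if_neg hb, one_mul, one_mul]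
        exact Or.inl (Or.inl h)
    · intro a b hab
      rw [pr_cons, pr_cons] at hab
      have hfin : ∀ (h0 : a 0 = b 0) (h1 : (fun i : Fin k => a i.succ) = fun i => b i.succ),
          a = b := by
        intro h0 h1
        funext i
        refine Fin.cases h0 (fun j => ?_) i
        exact congrFun h1 j
      by_cases ha : a 0 = true <;> by_cases hb : b 0 = true
      · rw [if_pos ha, if_pos hb, mul_inv, mul_mul_mul_comm, mul_inv_cancel, one_mul] at hab
        exact hfin (ha.trans hb.symm) (hinj _ _ hab)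
      · rw [if_pos ha, if_neg hb, one_mul] at hab
        exact (hkey _ _ hab).elim
      · rw [if_neg ha, if_pos hb, one_mul] at hab
        have h := hBi _ hab
        rw [mul_inv, inv_inv, mul_comm] at h
        exact (hkey _ _ h).elim
      · rw [if_neg ha, if_neg hb, one_mul, one_mul] at hab
        refine hfin ?_ (hinj _ _ hab)
        rw [Bool.not_eq_true] at ha hb
        rw [ha, hb]

end greedy

/-- many neighbours in one orbit -/
theorem twin_of_orbit {V A : Type*} [CommGroup A] [MulAction A V]
    (G : SimpleGraph V) (haut : ∀ (g : A) (x y : V), G.Adj x y → G.Adj (g • x) (g • y))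
    (x y : V) (hxy : y = x ∨ ∀ h : A, h • x ≠ y) (B : Finset A)
    (hB : ∀ g, g ∈ B ↔ g • x = x ∨ g • y = y) (S : Finset A)
    (hS : ∀ g ∈ S, G.Adj x (g • y)) (hcard : 729 * B.card < S.card) : TwinPair G := by
  classical
  obtain ⟨s, hs, -, hinj⟩ := greedy B
    (fun b hb => (hB _).2 (((hB _).1 hb).imp (fun h => inv_smul_eq_iff.2 h.symm)
      fun h => inv_smul_eq_iff.2 h.symm)) S 7 (by
    intro j hj
    refine lt_of_le_of_lt (Nat.mul_le_mul_right _ ?_) hcard
    calc 3 ^ j ≤ 3 ^ 6 := Nat.pow_le_pow_right (by norm_num) (by omega)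
      _ = 729 := by norm_num)
  have hfree' : ∀ (g h : A) (z : V), g • z = h • z → (g * h⁻¹) • z = z := by
    intro g h z e
    rw [mul_comm, mul_smul, e, inv_smul_smul]
  let f : ℕ → V := fun m => if pc m = 3 then pr s (fun i => m.testBit i) • x
    else pr s (fun i => m.testBit i) • y
  have hbits : ∀ u v : ℕ, u < 128 → v < 128 →
      (fun i : Fin 7 => u.testBit i) = (fun i : Fin 7 => v.testBit i) → u = v := by
    intro u v hu hv h
    apply Nat.eq_of_testBit_eq
    intro i
    by_cases hi : i < 7
    · exact congrFun h ⟨i, hi⟩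
    · have h1 : (2 : ℕ) ^ 7 ≤ 2 ^ i := Nat.pow_le_pow_right (by norm_num) (by omega)
      rw [Nat.testBit_lt_two_pow (lt_of_lt_of_le hu (by simpa using h1)),
        Nat.testBit_lt_two_pow (lt_of_lt_of_le hv (by simpa using h1))]
  refine twin_of_map G f ?_ ?_
  · intro u v hu hv huv
    apply hbits u v hu hv
    apply hinj
    rw [hB]
    simp only [f] at huv
    by_cases h1 : pc u = 3 <;> by_cases h2 : pc v = 3
    · rw [if_pos h1, if_pos h2] at huv
      exact Or.inl (hfree' _ _ _ huv)
    · rw [if_pos h1, if_neg h2] at huv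
      rcases hxy with rfl | hxy
      · exact Or.inl (hfree' _ _ _ huv)
      · exfalso
        apply hxy ((pr s fun i => v.testBit i)⁻¹ * pr s fun i => u.testBit i)
        rw [mul_smul, huv, inv_smul_smul]
    · rw [if_neg h1, if_pos h2] at huv
      rcases hxy with rfl | hxy
      · exact Or.inl (hfree' _ _ _ huv)
      · exfalso
        apply hxy ((pr s fun i => u.testBit i)⁻¹ * pr s fun i => v.testBit i)
        rw [mul_smul, ← huv, inv_smul_smul]
    · rw [if_neg h1, if_neg h2] at huv
      exact Or.inr (hfree' _ _ _ huv)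
  · rintro u v ⟨h1, h2, j, hj, hv⟩
    simp only [f]
    rw [if_pos h1, if_neg h2]
    have hpr : pr s (fun i => v.testBit i) = pr s (fun i => u.testBit i) * s j := by
      unfold pr
      have e1 : ∀ i : Fin 7, (if v.testBit i = true then s i else 1) =
          (if u.testBit i = true then s i else 1) * (if i = j then s i else 1) := by
        intro i
        rw [hv i]
        by_cases hij : i = j
        · subst hij
          simp [hj]
        · simp [hij]
      rw [Finset.prod_congr rfl fun i _ => e1 i, Finset.prod_mul_distrib]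
      congr 1
      simp
    rw [hpr, mul_smul]
    exact haut _ _ _ (hS _ (hs j))

section count
variable {V A : Type*} [Fintype V] [Fintype A] [CommGroup A] [MulAction A V]
  (G : SimpleGraph V) [DecidableRel G.Adj]

open Classical in
omit [Fintype V] in
/-- the bound for two vertices -/
theorem card_le_of_pair (haut : ∀ (g : A) (x y : V), G.Adj x y → G.Adj (g • x) (g • y))
    (htwin : ¬ TwinPair G) (x y : V) :
    (Finset.univ.filter fun g : A => G.Adj x (g • y)).card ≤
      729 * (Finset.univ.filter fun g : A => g • x = x ∨ g • y = y).card := by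
  by_contra hcon
  rw [not_le] at hcon
  apply htwin
  by_cases hxy : ∃ h : A, h • x = y
  · obtain ⟨h, rfl⟩ := hxy
    refine twin_of_orbit G haut x x (Or.inl rfl)
      (Finset.univ.filter fun g : A => g • x = x ∨ g • h • x = h • x) ?_
      ((Finset.univ.filter fun g : A => G.Adj x (g • h • x)).image (· * h)) ?_ ?_
    · intro g
      rw [Finset.mem_filter]
      refine ⟨fun hg => hg.2.imp id fun h3 => ?_, fun hg => ⟨Finset.mem_univ _, Or.inl ?_⟩⟩
      · rw [← mul_smul, mul_comm, mul_smul] at h3
        exact smul_left_cancel h h3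
      · exact hg.elim id id
    · intro g hg
      rw [Finset.mem_image] at hg
      obtain ⟨g', hg', rfl⟩ := hg
      rw [mul_smul]
      exact (Finset.mem_filter.1 hg').2
    · rw [Finset.card_image_of_injective _ (mul_left_injective h)]
      exact hcon
  · push Not at hxy
    exact twin_of_orbit G haut x y (Or.inr hxy) _
      (fun g => by rw [Finset.mem_filter]; exact ⟨fun h => h.2, fun h => ⟨Finset.mem_univ _, h⟩⟩)
      _ (fun g hg => (Finset.mem_filter.1 hg).2) hcon

omit [Fintype A] in
lemma sum_pair [Fintype A] (x : V) :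
    ∑ y : V, (Finset.univ.filter fun g : A => G.Adj x (g • y)).card =
      Fintype.card A * G.degree x := by
  classical
  simp only [Finset.card_filter]
  rw [Finset.sum_comm]
  have h2 : ∀ g : A, (∑ y : V, if G.Adj x (g • y) then 1 else 0) = G.degree x := by
    intro g
    rw [← Finset.card_filter, ← G.card_neighborFinset_eq_degree]
    refine Finset.card_bij (fun y _ => g • y) ?_ ?_ ?_
    · intro y hy
      rw [Finset.mem_filter] at hy
      exact (G.mem_neighborFinset x _).2 hy.2
    · intro y _ z _ h
      exact smul_left_cancel g h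
    · intro z hz
      refine ⟨g⁻¹ • z, ?_, smul_inv_smul _ _⟩
      rw [Finset.mem_filter, smul_inv_smul]
      exact ⟨Finset.mem_univ _, (G.mem_neighborFinset x _).1 hz⟩
  rw [Finset.sum_congr rfl fun g _ => h2 g]
  simp

/-- free actions -/
theorem degree_le (haut : ∀ (g : A) (x y : V), G.Adj x y → G.Adj (g • x) (g • y))
    (hfree : ∀ (g : A) (x : V), g • x = x → g = 1) (htwin : ¬ TwinPair G) (x : V) :
    Fintype.card A * G.degree x ≤ 729 * Fintype.card V := by
  classical
  rw [← sum_pair G x]
  calc ∑ y : V, (Finset.univ.filter fun g : A => G.Adj x (g • y)).card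
      ≤ ∑ _y : V, 729 := by
        refine Finset.sum_le_sum fun y _ => ?_
        refine (card_le_of_pair G haut htwin x y).trans ?_
        have : (Finset.univ.filter fun g : A => g • x = x ∨ g • y = y) ⊆ {1} := by
          intro g hg
          rw [Finset.mem_filter] at hg
          rw [Finset.mem_singleton]
          exact hg.2.elim (hfree g x) (hfree g y)
        have := Finset.card_le_card this
        rw [Finset.card_singleton] at this
        omega
    _ = 729 * Fintype.card V := by
        rw [Finset.sum_const, Finset.card_univ, smul_eq_mul, mul_comm]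

open Classical in
/-- the lemma of Burnside -/
lemma sum_stab : ∑ x : V, (Finset.univ.filter fun g : A => g • x = x).card =
    Nat.card (MulAction.orbitRel.Quotient A V) * Fintype.card A := by
  have h := MulAction.sum_card_fixedBy_eq_card_orbits_mul_card_group A V
  rw [Nat.card_eq_fintype_card]
  simp only [MulAction.orbitRel.Quotient]
  rw [← h]
  simp only [Finset.card_filter]
  rw [Finset.sum_comm]
  refine Finset.sum_congr rfl fun g _ => ?_
  rw [← Finset.card_filter, ← Fintype.card_subtype]
  exact Fintype.card_congr (Equiv.refl _)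

/-- arbitrary actions, the number of edges -/
theorem edges_le (haut : ∀ (g : A) (x y : V), G.Adj x y → G.Adj (g • x) (g • y))
    (htwin : ¬ TwinPair G) :
    G.edgeFinset.card ≤ 729 * Nat.card (MulAction.orbitRel.Quotient A V) * Fintype.card V := by
  classical
  have h1 : Fintype.card A * (2 * G.edgeFinset.card) ≤
      729 * (2 * (Fintype.card V * (Nat.card (MulAction.orbitRel.Quotient A V) *
        Fintype.card A))) := by
    rw [← G.sum_degrees_eq_twice_card_edges, Finset.mul_sum]
    calc ∑ x : V, Fintype.card A * G.degree x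
        = ∑ x : V, ∑ y : V, (Finset.univ.filter fun g : A => G.Adj x (g • y)).card :=
          Finset.sum_congr rfl fun x _ => (sum_pair G x).symm
      _ ≤ ∑ x : V, ∑ y : V, 729 * ((Finset.univ.filter fun g : A => g • x = x).card +
            (Finset.univ.filter fun g : A => g • y = y).card) := by
          refine Finset.sum_le_sum fun x _ => Finset.sum_le_sum fun y _ => ?_
          refine (card_le_of_pair G haut htwin x y).trans (Nat.mul_le_mul_left _ ?_)
          rw [Finset.filter_or]
          exact Finset.card_union_le _ _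
      _ = 729 * (2 * (Fintype.card V * (Nat.card (MulAction.orbitRel.Quotient A V) *
            Fintype.card A))) := by
          simp only [← Finset.mul_sum, Finset.sum_add_distrib, sum_stab, Finset.sum_const,
            Finset.card_univ, smul_eq_mul]
          ring
  have hA : 0 < Fintype.card A := Fintype.card_pos
  have h2 : Fintype.card A * G.edgeFinset.card ≤ Fintype.card A *
      (729 * Nat.card (MulAction.orbitRel.Quotient A V) * Fintype.card V) := by
    nlinarith [h1]
  exact Nat.le_of_mul_le_mul_left h2 hA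

end count

/-- many neighbours of `x` in the orbit of some `y` -/
theorem exists_many {V A : Type*} [Fintype V] [Fintype A] [CommGroup A] [MulAction A V]
    (G : SimpleGraph V) [DecidableRel G.Adj] (x : V) (c : ℕ)
    (hcon : c * Fintype.card V < Fintype.card A * G.degree x) :
    ∃ y : V, (y = x ∨ ∀ h : A, h • x ≠ y) ∧
      ∃ S : Finset A, c < S.card ∧ ∀ g ∈ S, G.Adj x (g • y) := by
  classical
  have h1 : ∑ y : V, (Finset.univ.filter fun g : A => G.Adj x (g • y)).card =
      Fintype.card A * G.degree x := by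
    simp only [Finset.card_filter]
    rw [Finset.sum_comm]
    have h2 : ∀ g : A, (∑ y : V, if G.Adj x (g • y) then 1 else 0) = G.degree x := by
      intro g
      rw [← Finset.card_filter, ← G.card_neighborFinset_eq_degree]
      refine Finset.card_bij (fun y _ => g • y) ?_ ?_ ?_
      · intro y hy
        rw [Finset.mem_filter] at hy
        exact (G.mem_neighborFinset x _).2 hy.2
      · intro y _ z _ h
        exact smul_left_cancel g h
      · intro z hz
        refine ⟨g⁻¹ • z, ?_, smul_inv_smul _ _⟩
        rw [Finset.mem_filter, smul_inv_smul]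
        exact ⟨Finset.mem_univ _, (G.mem_neighborFinset x _).1 hz⟩
    rw [Finset.sum_congr rfl fun g _ => h2 g]
    simp
  have h3 : ∃ y : V, c < (Finset.univ.filter fun g : A => G.Adj x (g • y)).card := by
    by_contra h4
    push Not at h4
    have h5 := Finset.sum_le_sum fun y (_ : y ∈ (Finset.univ : Finset V)) => h4 y
    rw [h1] at h5
    simp only [Finset.sum_const, Finset.card_univ, smul_eq_mul] at h5
    rw [mul_comm (Fintype.card V)] at h5
    omega
  obtain ⟨y, hy⟩ := h3
  by_cases hxy : ∃ h : A, h • x = y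
  · obtain ⟨h, rfl⟩ := hxy
    refine ⟨x, Or.inl rfl,
      (Finset.univ.filter fun g : A => G.Adj x (g • h • x)).image (· * h), ?_, ?_⟩
    · rw [Finset.card_image_of_injective _ (mul_left_injective h)]
      exact hy
    · intro g hg
      rw [Finset.mem_image] at hg
      obtain ⟨g', hg', rfl⟩ := hg
      rw [mul_smul]
      exact (Finset.mem_filter.1 hg').2
  · push Not at hxy
    exact ⟨y, Or.inr hxy, _, hy, fun g hg => (Finset.mem_filter.1 hg).2⟩

end TwinSym
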