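import Pool.Agent.Lib.TwinSym.Basic

/-!
# MP_04f010_co: groups of exponent two, the sharp constant `3`

Four neighbours in one orbit give the 4-cube, the folded 4-cube `K_{4,4}` or the product of `K_4`
and `K_2`, each of which is the union of two edge-disjoint Hamilton cycles.
-/

set_option autoImplicit false

namespace TwinSym

/-- the parity of the number of ones among the first four digits -/
def par (m : ℕ) : Bool := (m.testBit 0 ^^ m.testBit 1) ^^ (m.testBit 2 ^^ m.testBit 3)

lemma par_xor (u w : ℕ) : par (u ^^^ w) = (par u ^^ par w) := by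
  simp only [par, Nat.testBit_xor]
  generalize u.testBit 0 = a0
  generalize u.testBit 1 = a1
  generalize u.testBit 2 = a2
  generalize u.testBit 3 = a3
  generalize w.testBit 0 = b0
  generalize w.testBit 1 = b1
  generalize w.testBit 2 = b2
  generalize w.testBit 3 = b3
  revert a0 a1 a2 a3 b0 b1 b2 b3
  decide

section
variable {A : Type*} [CommGroup A]

/-- product over the ones of `m` -/
def pm {k : ℕ} (s : Fin k → A) (m : ℕ) : A := pr s fun i => m.testBit i

lemma pm_xor (h2 : ∀ g : A, g * g = 1) {k : ℕ} (s : Fin k → A) (u w : ℕ) :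
    pm s (u ^^^ w) = pm s u * pm s w := by
  unfold pm pr
  rw [← Finset.prod_mul_distrib]
  refine Finset.prod_congr rfl fun i _ => ?_
  simp only [Nat.testBit_xor]
  rcases Bool.eq_false_or_eq_true (u.testBit i) with ha | ha <;>
    rcases Bool.eq_false_or_eq_true (w.testBit i) with hb | hb <;> simp [ha, hb, h2]

variable {V : Type*} [MulAction A V]

theorem twin_of_xor (G : SimpleGraph V)
    (haut : ∀ (g : A) (x y : V), G.Adj x y → G.Adj (g • x) (g • y))
    (h2 : ∀ g : A, g * g = 1)
    {k : ℕ} (N : ℕ) (hN : N = 2 ^ k) (s : Fin k → A) (x y : V)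
    (hxy : x = y ∨ ∀ h : A, h • x ≠ y) (W : List ℕ) (hW : ∀ w ∈ W, G.Adj x (pm s w • y))
    (hpar : x = y ∨ ∀ w ∈ W, par w = true)
    (hrel : ∀ w, w < N → w ≠ 0 → (x = y ∨ par w = false) →
      pm s w • x ≠ x ∧ pm s w • y ≠ y)
    (n : ℕ) (c d : Fin (n + 3) → ℕ) (hc : ∀ i, c i < N) (hd : ∀ i, d i < N)
    (hci : ∀ i j, c i = c j → i = j) (hdi : ∀ i j, d i = d j → i = j)
    (hca : ∀ i, c i ^^^ c (i + 1) ∈ W) (hda : ∀ i, d i ^^^ d (i + 1) ∈ W)
    (hcd : ∀ i, ∃ j, d j = c i) (hdc : ∀ i, ∃ j, c j = d i)
    (hdis : ∀ i j, ¬ (c i = d j ∧ c (i + 1) = d (j + 1)) ∧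
      ¬ (c i = d (j + 1) ∧ c (i + 1) = d j)) : TwinPair G := by
  have hfree' : ∀ (u v : ℕ) (z : V), pm s u • z = pm s v • z → pm s (u ^^^ v) • z = z := by
    intro u v z e
    rw [pm_xor h2, mul_comm, mul_smul, e, ← mul_smul, h2, one_smul]
  let z : Bool → V := fun b => if b then y else x
  let f : ℕ → V := fun m => pm s m • z (par m)
  have hsame : ∀ u v, u < N → v < N → (x = y ∨ par (u ^^^ v) = false) →
      (pm s u • x = pm s v • x ∨ pm s u • y = pm s v • y) → u = v := by
    intro u v hu hv hp h
    by_contra hne
    have h3 := hrel (u ^^^ v) (by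
      rw [hN] at hu hv ⊢
      exact Nat.xor_lt_two_pow hu hv) (by rwa [Ne, Nat.xor_eq_zero_iff]) hp
    rcases h with h | h
    · exact h3.1 (hfree' _ _ _ h)
    · exact h3.2 (hfree' _ _ _ h)
  have hinj : ∀ u v, u < N → v < N → f u = f v → u = v := by
    intro u v hu hv huv
    simp only [f] at huv
    by_cases hp : par u = par v
    · rw [hp] at huv
      refine hsame u v hu hv (Or.inr ?_) ?_
      · rw [par_xor, hp, Bool.xor_self]
      · cases hv' : par v <;> rw [hv'] at huv
        · exact Or.inl huv
        · exact Or.inr huv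
    · rcases hxy with hxy | hxy
      · have hz : ∀ b, z b = x := by
          intro b
          cases b
          · rfl
          · exact hxy.symm
        rw [hz, hz] at huv
        exact hsame u v hu hv (Or.inl hxy) (Or.inl huv)
      · exfalso
        cases hu' : par u <;> cases hv' : par v <;> rw [hu', hv'] at huv <;>
          simp only [hu', hv'] at hp
        · exact hp trivial
        · apply hxy ((pm s v)⁻¹ * pm s u)
          have : pm s u • x = pm s v • y := huv
          rw [mul_smul, this, inv_smul_smul]
        · apply hxy ((pm s u)⁻¹ * pm s v)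
          have : pm s u • y = pm s v • x := huv
          rw [mul_smul, ← this, inv_smul_smul]
        · exact hp trivial
  have hadj : ∀ u v, u ^^^ v ∈ W → G.Adj (f u) (f v) := by
    intro u v hw
    have hv : pm s v = pm s u * pm s (u ^^^ v) := by
      rw [pm_xor h2, ← mul_assoc, h2, one_mul]
    have hu : pm s u = pm s v * pm s (u ^^^ v) := by
      rw [pm_xor h2, mul_comm (pm s u), ← mul_assoc, h2, one_mul]
    have h1 := haut (pm s u) _ _ (hW _ hw)
    have h3 := haut (pm s v) _ _ (hW _ hw)
    rw [← mul_smul, ← hv] at h1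
    rw [← mul_smul, ← hu] at h3
    simp only [f]
    rcases hpar with hxy' | hpar
    · have hz : ∀ b, z b = x := by
        intro b
        cases b
        · rfl
        · exact hxy'.symm
      rw [hz, hz]
      rw [← hxy'] at h1
      exact h1
    · have hp := hpar _ hw
      rw [par_xor] at hp
      cases hu' : par u <;> cases hv' : par v <;> rw [hu', hv'] at hp
      · exact absurd hp (by decide)
      · exact h1
      · exact h3.symm
      · exact absurd hp (by decide)
  refine ⟨n, fun i => f (c i), fun i => f (d i), ?_, ?_, ?_, ?_, ?_, ?_⟩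
  · intro i j h
    exact hci _ _ (hinj _ _ (hc i) (hc j) h)
  · intro i j h
    exact hdi _ _ (hinj _ _ (hd i) (hd j) h)
  · intro i
    exact hadj _ _ (hca i)
  · intro i
    exact hadj _ _ (hda i)
  · ext w
    constructor
    · rintro ⟨i, rfl⟩
      obtain ⟨j, hj⟩ := hcd i
      exact ⟨j, by simp only [hj]⟩
    · rintro ⟨i, rfl⟩
      obtain ⟨j, hj⟩ := hdc i
      exact ⟨j, by simp only [hj]⟩
  · intro i j h
    rw [Sym2.eq_iff] at h
    rcases h with ⟨h1, h3⟩ | ⟨h1, h3⟩
    · exact (hdis i j).1 ⟨hinj _ _ (hc _) (hd _) h1, hinj _ _ (hc _) (hd _) h3⟩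
    · exact (hdis i j).2 ⟨hinj _ _ (hc _) (hd _) h1, hinj _ _ (hc _) (hd _) h3⟩

/-- the product of `K_4` and `K_2` -/
theorem twin_K (G : SimpleGraph V)
    (haut : ∀ (g : A) (x y : V), G.Adj x y → G.Adj (g • x) (g • y))
    (h2 : ∀ g : A, g * g = 1) (x : V)
    (a b l : A) (hla : (a * l) • x ≠ x) (hlb : (b * l) • x ≠ x) (hlab : (a * b * l) • x ≠ x)
    (h1 : G.Adj x (a • x)) (h3 : G.Adj x (b • x)) (h4 : G.Adj x ((a * b) • x))
    (h5 : G.Adj x (l • x)) : TwinPair G := by
  refine twin_of_xor G haut h2 8 (by norm_num) ![a, b, l] x x (Or.inl rfl) [1, 2, 3, 4]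
    ?_ (Or.inl rfl) ?_ 5 ![0, 1, 3, 2, 6, 7, 5, 4] ![0, 3, 7, 4, 6, 5, 1, 2]
    (by decide) (by decide) (by decide) (by decide) (by decide) (by decide) (by decide)
    (by decide) (by decide)
  · intro w hw
    simp only [List.mem_cons, List.not_mem_nil, or_false] at hw
    rcases hw with rfl | rfl | rfl | rfl <;>
      simp [pm, pr, Fin.prod_univ_three, Nat.testBit, h1, h3, h4, h5]
  · intro w hw hw0 _
    rw [and_self]
    have ha := h1.ne'
    have hb := h3.ne'
    have habn := h4.ne'
    have hl := h5.ne'
    interval_cases w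
    · exact absurd rfl hw0
    · simpa [pm, pr, Fin.prod_univ_three, Nat.testBit] using ha
    · simpa [pm, pr, Fin.prod_univ_three, Nat.testBit] using hb
    · simpa [pm, pr, Fin.prod_univ_three, Nat.testBit] using habn
    · simpa [pm, pr, Fin.prod_univ_three, Nat.testBit] using hl
    · simpa [pm, pr, Fin.prod_univ_three, Nat.testBit] using hla
    · simpa [pm, pr, Fin.prod_univ_three, Nat.testBit] using hlb
    · simpa [pm, pr, Fin.prod_univ_three, Nat.testBit] using hlab

/-- four neighbours in one orbit -/
theorem twin_of_four (G : SimpleGraph V)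
    (haut : ∀ (g : A) (x y : V), G.Adj x y → G.Adj (g • x) (g • y))
    (h2 : ∀ g : A, g * g = 1) (x y : V)
    (hxy : x = y ∨ ∀ h : A, h • x ≠ y) (s : Fin 4 → A)
    (hs : ∀ i j, i ≠ j → (s i * s j) • x ≠ x ∧ (s i * s j) • y ≠ y)
    (hS : ∀ i, G.Adj x (s i • y)) : TwinPair G := by
  have d01 := hs 0 1 (by decide)
  have d02 := hs 0 2 (by decide)
  have d03 := hs 0 3 (by decide)
  have d12 := hs 1 2 (by decide)
  have d13 := hs 1 3 (by decide)
  have d23 := hs 2 3 (by decide)
  have hne : x = y → ∀ g : A, G.Adj x (g • y) → g • x ≠ x ∧ g • y ≠ y := by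
    rintro rfl g h
    exact ⟨h.ne', h.ne'⟩
  have n0 := fun h => hne h _ (hS 0)
  have n1 := fun h => hne h _ (hS 1)
  have n2 := fun h => hne h _ (hS 2)
  have n3 := fun h => hne h _ (hS 3)
  by_cases hq : (s 0 * s 1 * s 2 * s 3) • x = x ∨ (s 0 * s 1 * s 2 * s 3) • y = y
  · -- folded cube
    have hS3 : G.Adj x ((s 0 * s 1 * s 2) • y) := by
      rcases hq with hq | hq
      · have h := haut (s 0 * s 1 * s 2 * s 3) _ _ (hS 3)
        rwa [hq, ← mul_smul, mul_assoc (s 0 * s 1 * s 2), h2, mul_one] at h
      · have h : (s 0 * s 1 * s 2) • y = s 3 • y := by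
          have h4 : s 3 • (s 0 * s 1 * s 2 * s 3) • y = s 3 • y := by rw [hq]
          rwa [← mul_smul, mul_comm (s 3), mul_assoc (s 0 * s 1 * s 2), h2, mul_one] at h4
        rw [h]
        exact hS 3
    have n3' := fun h => hne h _ hS3
    refine twin_of_xor G haut h2 8 (by norm_num) ![s 0, s 1, s 2] x y hxy [1, 2, 4, 7]
      ?_ (Or.inr (by decide)) ?_ 5 ![0, 1, 3, 2, 6, 7, 5, 4] ![0, 2, 5, 1, 6, 4, 3, 7]
      (by decide) (by decide) (by decide) (by decide) (by decide) (by decide) (by decide)
      (by decide) (by decide)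
    · intro w hw
      simp only [List.mem_cons, List.not_mem_nil, or_false] at hw
      rcases hw with rfl | rfl | rfl | rfl <;>
        simp [pm, pr, Fin.prod_univ_three, Nat.testBit, hS, hS3]
    · intro w hw hw0 hp
      interval_cases w
      · exact absurd rfl hw0
      · have := hp.resolve_right (by decide)
        simpa [pm, pr, Fin.prod_univ_three, Nat.testBit] using n0 this
      · have := hp.resolve_right (by decide)
        simpa [pm, pr, Fin.prod_univ_three, Nat.testBit] using n1 this
      · simpa [pm, pr, Fin.prod_univ_three, Nat.testBit] using d01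
      · have := hp.resolve_right (by decide)
        simpa [pm, pr, Fin.prod_univ_three, Nat.testBit] using n2 this
      · simpa [pm, pr, Fin.prod_univ_three, Nat.testBit] using d02
      · simpa [pm, pr, Fin.prod_univ_three, Nat.testBit] using d12
      · have := hp.resolve_right (by decide)
        simpa [pm, pr, Fin.prod_univ_three, Nat.testBit] using n3' this
  rw [not_or] at hq
  by_cases ht : x = y ∧ ((s 0 * s 1 * s 2) • x = x ∨ (s 0 * s 1 * s 3) • x = x ∨
      (s 0 * s 2 * s 3) • x = x ∨ (s 1 * s 2 * s 3) • x = x)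
  · obtain ⟨rfl, ht⟩ := ht
    have hT : ∀ i j k l : Fin 4, i ≠ l → j ≠ l → k ≠ l → (s i * s j * s k) • x = x →
        TwinPair G := by
      intro i j k l hil hjl hkl h
      have e : (s i * s j) • x = s k • x := by
        have h4 : s k • (s i * s j * s k) • x = s k • x := by rw [h]
        rwa [← mul_smul, mul_comm (s k), mul_assoc (s i * s j), h2, mul_one] at h4
      refine twin_K G haut h2 x (s i) (s j) (s l) (hs _ _ hil).1 (hs _ _ hjl).1 ?_
        (hS i) (hS j) ?_ (hS l)
      · rw [mul_comm, mul_smul, e, ← mul_smul, mul_comm]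
        exact (hs _ _ hkl).1
      · rw [e]
        exact hS k
    rcases ht with h | h | h | h
    · exact hT 0 1 2 3 (by decide) (by decide) (by decide) h
    · exact hT 0 1 3 2 (by decide) (by decide) (by decide) h
    · exact hT 0 2 3 1 (by decide) (by decide) (by decide) h
    · exact hT 1 2 3 0 (by decide) (by decide) (by decide) h
  · have t : x = y → ∀ g : A, g • x ≠ x → g • x ≠ x ∧ g • y ≠ y := by
      rintro rfl g h
      exact ⟨h, h⟩
    have t012 := fun h : x = y => t h _ fun h' => ht ⟨h, Or.inl h'⟩
    have t013 := fun h : x = y => t h _ fun h' => ht ⟨h, Or.inr (Or.inl h')⟩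
    have t023 := fun h : x = y => t h _ fun h' => ht ⟨h, Or.inr (Or.inr (Or.inl h'))⟩
    have t123 := fun h : x = y => t h _ fun h' => ht ⟨h, Or.inr (Or.inr (Or.inr h'))⟩
    refine twin_of_xor G haut h2 16 (by norm_num) s x y hxy [1, 2, 4, 8]
      ?_ (Or.inr (by decide)) ?_ 13 ![0, 1, 3, 2, 6, 7, 5, 4, 12, 13, 9, 11, 15, 14, 10, 8]
      ![0, 2, 10, 11, 3, 7, 15, 13, 5, 1, 9, 8, 12, 14, 6, 4]
      (by decide) (by decide) (by decide +kernel) (by decide +kernel) (by decide) (by decide)
      (by decide +kernel) (by decide +kernel) (by decide +kernel)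
    · intro w hw
      simp only [List.mem_cons, List.not_mem_nil, or_false] at hw
      rcases hw with rfl | rfl | rfl | rfl <;>
        simp [pm, pr, Fin.prod_univ_four, Nat.testBit, hS]
    · intro w hw hw0 hp
      interval_cases w
      · exact absurd rfl hw0
      · have := hp.resolve_right (by decide)
        simpa [pm, pr, Fin.prod_univ_four, Nat.testBit] using n0 this
      · have := hp.resolve_right (by decide)
        simpa [pm, pr, Fin.prod_univ_four, Nat.testBit] using n1 this
      · simpa [pm, pr, Fin.prod_univ_four, Nat.testBit] using d01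
      · have := hp.resolve_right (by decide)
        simpa [pm, pr, Fin.prod_univ_four, Nat.testBit] using n2 this
      · simpa [pm, pr, Fin.prod_univ_four, Nat.testBit] using d02
      · simpa [pm, pr, Fin.prod_univ_four, Nat.testBit] using d12
      · have := hp.resolve_right (by decide)
        simpa [pm, pr, Fin.prod_univ_four, Nat.testBit] using t012 this
      · have := hp.resolve_right (by decide)
        simpa [pm, pr, Fin.prod_univ_four, Nat.testBit] using n3 this
      · simpa [pm, pr, Fin.prod_univ_four, Nat.testBit] using d03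
      · simpa [pm, pr, Fin.prod_univ_four, Nat.testBit] using d13
      · have := hp.resolve_right (by decide)
        simpa [pm, pr, Fin.prod_univ_four, Nat.testBit] using t013 this
      · simpa [pm, pr, Fin.prod_univ_four, Nat.testBit] using d23
      · have := hp.resolve_right (by decide)
        simpa [pm, pr, Fin.prod_univ_four, Nat.testBit] using t023 this
      · have := hp.resolve_right (by decide)
        simpa [pm, pr, Fin.prod_univ_four, Nat.testBit] using t123 this
      · simpa [pm, pr, Fin.prod_univ_four, Nat.testBit] using hq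

end

section hall
variable {A : Type*} [CommGroup A]

/-- four elements of `S` in different cosets of both subgroups -/
theorem exists_four [DecidableEq A] (H L : Finset A) (hH1 : 1 ∈ H)
    (hHm : ∀ g ∈ H, ∀ h ∈ H, g * h ∈ H) (hHi : ∀ g ∈ H, g⁻¹ ∈ H)
    (hLm : ∀ g ∈ L, ∀ h ∈ L, g * h ∈ L) (hLi : ∀ g ∈ L, g⁻¹ ∈ L)
    (hL1 : 1 ∈ L) (hLH : L.card ≤ H.card) (S : Finset A) (hSH : ∀ g ∈ S, ∀ h ∈ H, g * h ∈ S)
    (hcard : 3 * H.card < S.card) :
    ∃ s : Fin 4 → A, (∀ i, s i ∈ S) ∧
      ∀ i j, i ≠ j → (s i)⁻¹ * s j ∉ H ∧ (s i)⁻¹ * s j ∉ L := by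
  -- maximal system of different cosets of `H`
  have hgreedy : ∀ k ≤ 4, ∃ r : Fin k → A, (∀ i, r i ∈ S) ∧
      ∀ i j, i ≠ j → (r i)⁻¹ * r j ∉ H := by
    intro k
    induction k with
    | zero => exact fun _ => ⟨Fin.elim0, fun i => i.elim0, fun i => i.elim0⟩
    | succ k ih =>
      intro hk
      obtain ⟨r, hr, hrr⟩ := ih (by omega)
      obtain ⟨t, htS, ht⟩ : ∃ t ∈ S, t ∉ Finset.univ.biUnion fun i => H.image (r i * ·) := by
        refine Finset.exists_mem_notMem_of_card_lt_card (lt_of_le_of_lt ?_ hcard)
        refine Finset.card_biUnion_le.trans ?_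
        calc ∑ i : Fin k, (H.image (r i * ·)).card ≤ ∑ _i : Fin k, H.card :=
              Finset.sum_le_sum fun i _ => Finset.card_image_le
          _ = k * H.card := by simp
          _ ≤ 3 * H.card := Nat.mul_le_mul_right _ (by omega)
      have ht' : ∀ i, (r i)⁻¹ * t ∉ H := by
        intro i hi
        apply ht
        rw [Finset.mem_biUnion]
        exact ⟨i, Finset.mem_univ _, Finset.mem_image.2 ⟨_, hi, mul_inv_cancel_left _ _⟩⟩
      refine ⟨Fin.cons t r, ?_, ?_⟩
      · intro i
        refine Fin.cases ?_ ?_ i
        · simpa using htS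
        · intro j
          simpa using hr j
      · intro i j
        refine Fin.cases ?_ ?_ i
        · refine Fin.cases ?_ ?_ j
          · intro h
            exact absurd rfl h
          · intro j' _ h
            have h' := hHi _ h
            simp only [Fin.cons_zero, Fin.cons_succ, mul_inv, inv_inv] at h'
            rw [mul_comm] at h'
            exact ht' j' h'
        · intro i'
          refine Fin.cases ?_ ?_ j
          · intro _ h
            simp only [Fin.cons_zero, Fin.cons_succ] at h
            exact ht' i' h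
          · intro j' hij h
            simp only [Fin.cons_succ] at h
            exact hrr i' j' (fun e => hij (by rw [e])) h
  obtain ⟨r, hr, hrr⟩ := hgreedy 4 le_rfl
  -- the cosets of `L`
  let q : A → Finset A := fun g => L.image (g * ·)
  have hall := (Finset.all_card_le_biUnion_card_iff_exists_injective
    (fun i : Fin 4 => H.image fun h => q (r i * h))).1 (by
    intro T
    let U : Finset A := T.biUnion fun i => H.image (r i * ·)
    have hU : U.card = T.card * H.card := by
      rw [Finset.card_biUnion]
      · rw [Finset.sum_congr rfl fun i _ => Finset.card_image_of_injective H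
          (mul_right_injective (r i))]
        simp
      · intro i _ j _ hij
        rw [Function.onFun, Finset.disjoint_left]
        intro g hg hg'
        obtain ⟨h, hh, rfl⟩ := Finset.mem_image.1 hg
        obtain ⟨h', hh', he⟩ := Finset.mem_image.1 hg'
        apply hrr i j hij
        have : (r i)⁻¹ * r j = h * h'⁻¹ := by
          rw [inv_mul_eq_iff_eq_mul, ← mul_assoc, ← he, mul_inv_cancel_right]
        rw [this]
        exact hHm _ hh _ (hHi _ hh')
    have hle : U.card ≤ L.card * (T.biUnion fun i => H.image fun h => q (r i * h)).card := by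
      have h1 : U.image q ⊆ T.biUnion fun i => H.image fun h => q (r i * h) := by
        intro c hc
        obtain ⟨g, hg, rfl⟩ := Finset.mem_image.1 hc
        obtain ⟨i, hi, hgi⟩ := Finset.mem_biUnion.1 hg
        obtain ⟨h, hh, rfl⟩ := Finset.mem_image.1 hgi
        exact Finset.mem_biUnion.2 ⟨i, hi, Finset.mem_image.2 ⟨h, hh, rfl⟩⟩
      refine (Finset.card_le_mul_card_image (f := q) U L.card ?_).trans
        (Nat.mul_le_mul_left _ (Finset.card_le_card h1))
      intro c hc
      obtain ⟨g, hg, rfl⟩ := Finset.mem_image.1 hc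
      refine (Finset.card_le_card (t := q g) ?_).trans Finset.card_image_le
      intro g' hg'
      rw [Finset.mem_filter] at hg'
      rw [← hg'.2]
      exact Finset.mem_image.2 ⟨1, hL1, mul_one _⟩
    rw [hU] at hle
    have h5 : T.card * H.card ≤
        (T.biUnion fun i => H.image fun h => q (r i * h)).card * H.card := by
      refine hle.trans ?_
      rw [mul_comm L.card]
      exact Nat.mul_le_mul_left _ hLH
    exact Nat.le_of_mul_le_mul_right h5 (Finset.card_pos.2 ⟨1, hH1⟩))
  obtain ⟨f, hf, hfm⟩ := hall
  have hex : ∀ i, ∃ h ∈ H, q (r i * h) = f i := fun i => Finset.mem_image.1 (hfm i)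
  choose h hh hhf using hex
  refine ⟨fun i => r i * h i, fun i => hSH _ (hr i) _ (hh i), ?_⟩
  intro i j hij
  constructor
  · intro hm
    apply hrr i j hij
    have : (r i)⁻¹ * r j = ((r i * h i)⁻¹ * (r j * h j)) * (h i * (h j)⁻¹) := by
      rw [mul_inv, mul_mul_mul_comm (r i)⁻¹, mul_assoc, mul_mul_mul_comm (h i)⁻¹,
        inv_mul_cancel, mul_inv_cancel, one_mul, mul_one]
    rw [this]
    exact hHm _ hm _ (hHm _ (hh i) _ (hHi _ (hh j)))
  · intro hm
    apply hij
    apply hf
    rw [← hhf i, ← hhf j]
    ext g
    simp only [q, Finset.mem_image]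
    constructor
    · rintro ⟨l, hl, rfl⟩
      refine ⟨((r i * h i)⁻¹ * (r j * h j))⁻¹ * l, hLm _ (hLi _ hm) _ hl, ?_⟩
      rw [mul_inv, inv_inv, ← mul_assoc, mul_comm (r i * h i), mul_inv_cancel_left]
    · rintro ⟨l, hl, rfl⟩
      refine ⟨(r i * h i)⁻¹ * (r j * h j) * l, hLm _ hm _ hl, ?_⟩
      rw [← mul_assoc, mul_inv_cancel_left]

end hall

section count
variable {V A : Type*} [Fintype V] [Fintype A] [CommGroup A] [MulAction A V]
  (G : SimpleGraph V) [DecidableRel G.Adj]

open Classical in
omit [Fintype V] in
/-- the bound for two vertices whose stabilizers are comparable in size -/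
theorem card_le_aux (haut : ∀ (g : A) (x y : V), G.Adj x y → G.Adj (g • x) (g • y))
    (h2 : ∀ g : A, g * g = 1) (htwin : ¬ TwinPair G) (x y : V)
    (hxy : x = y ∨ ∀ h : A, h • x ≠ y)
    (hle : (Finset.univ.filter fun g : A => g • y = y).card ≤
      (Finset.univ.filter fun g : A => g • x = x).card) :
    (Finset.univ.filter fun g : A => G.Adj x (g • y)).card ≤
      3 * (Finset.univ.filter fun g : A => g • x = x).card := by
  by_contra hcon
  rw [not_le] at hcon
  have hinv : ∀ g : A, g⁻¹ = g := fun g => inv_eq_of_mul_eq_one_left (h2 g)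
  obtain ⟨s, hsS, hs⟩ := exists_four (Finset.univ.filter fun g : A => g • x = x)
    (Finset.univ.filter fun g : A => g • y = y) (by simp)
    (by
      intro g hg h hh
      rw [Finset.mem_filter] at *
      exact ⟨Finset.mem_univ _, by rw [mul_smul, hh.2, hg.2]⟩)
    (by
      intro g hg
      rwa [hinv])
    (by
      intro g hg h hh
      rw [Finset.mem_filter] at *
      exact ⟨Finset.mem_univ _, by rw [mul_smul, hh.2, hg.2]⟩)
    (by
      intro g hg
      rwa [hinv])
    (by simp) hle (Finset.univ.filter fun g : A => G.Adj x (g • y))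
    (by
      intro g hg h hh
      rw [Finset.mem_filter] at *
      refine ⟨Finset.mem_univ _, ?_⟩
      have h3 := haut h _ _ hg.2
      rwa [hh.2, ← mul_smul, mul_comm] at h3) hcon
  refine htwin (twin_of_four G haut h2 x y hxy s ?_ fun i => (Finset.mem_filter.1 (hsS i)).2)
  intro i j hij
  have h3 := hs i j hij
  rw [hinv, Finset.mem_filter, Finset.mem_filter] at h3
  exact ⟨fun h => h3.1 ⟨Finset.mem_univ _, h⟩, fun h => h3.2 ⟨Finset.mem_univ _, h⟩⟩

open Classical in
omit [Fintype V] in
/-- the bound for two vertices -/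
theorem card_le_three (haut : ∀ (g : A) (x y : V), G.Adj x y → G.Adj (g • x) (g • y))
    (h2 : ∀ g : A, g * g = 1) (htwin : ¬ TwinPair G) (x y : V) :
    (Finset.univ.filter fun g : A => G.Adj x (g • y)).card ≤
      3 * max (Finset.univ.filter fun g : A => g • x = x).card
        (Finset.univ.filter fun g : A => g • y = y).card := by
  by_cases hxy : ∃ h : A, h • x = y
  · obtain ⟨h, rfl⟩ := hxy
    have h3 := card_le_aux G haut h2 htwin x x (Or.inl rfl) le_rfl
    refine le_trans ?_ (h3.trans (Nat.mul_le_mul_left _ (le_max_left _ _)))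
    rw [← Finset.card_image_of_injective (Finset.univ.filter fun g : A => G.Adj x (g • h • x))
      (mul_left_injective h)]
    refine Finset.card_le_card ?_
    intro g hg
    obtain ⟨g', hg', rfl⟩ := Finset.mem_image.1 hg
    rw [Finset.mem_filter]
    refine ⟨Finset.mem_univ _, ?_⟩
    show G.Adj x ((g' * h) • x)
    rw [mul_smul]
    exact (Finset.mem_filter.1 hg').2
  · push Not at hxy
    rcases le_total (Finset.univ.filter fun g : A => g • y = y).card
      (Finset.univ.filter fun g : A => g • x = x).card with hle | hle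
    · exact (card_le_aux G haut h2 htwin x y (Or.inr hxy) hle).trans
        (Nat.mul_le_mul_left _ (le_max_left _ _))
    · have h3 := card_le_aux G haut h2 htwin y x (Or.inr fun h e => hxy h (by
        rw [← e, ← mul_smul, h2, one_smul])) hle
      refine le_trans (le_of_eq ?_) (h3.trans (Nat.mul_le_mul_left _ (le_max_right _ _)))
      congr 1
      ext g
      rw [Finset.mem_filter, Finset.mem_filter]
      have h4 : ∀ a b : V, G.Adj a (g • b) → G.Adj b (g • a) := by
        intro a b h
        have h5 := haut g _ _ h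
        rw [← mul_smul, h2, one_smul] at h5
        exact h5.symm
      exact ⟨fun h => ⟨h.1, h4 _ _ h.2⟩, fun h => ⟨h.1, h4 _ _ h.2⟩⟩

/-- free actions of groups of exponent two -/
theorem degree_le_three (haut : ∀ (g : A) (x y : V), G.Adj x y → G.Adj (g • x) (g • y))
    (hfree : ∀ (g : A) (x : V), g • x = x → g = 1) (htwin : ¬ TwinPair G)
    (h2 : ∀ g : A, g * g = 1) (x : V) :
    Fintype.card A * G.degree x ≤ 3 * Fintype.card V := by
  classical
  rw [← sum_pair G x]
  calc ∑ y : V, (Finset.univ.filter fun g : A => G.Adj x (g • y)).card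
      ≤ ∑ _y : V, 3 := by
        refine Finset.sum_le_sum fun y _ => ?_
        have h3 := card_le_three G haut h2 htwin x y
        have h4 : ∀ z : V, (Finset.univ.filter fun g : A => g • z = z).card ≤ 1 := by
          intro z
          have : (Finset.univ.filter fun g : A => g • z = z) ⊆ {1} := by
            intro g hg
            rw [Finset.mem_filter] at hg
            rw [Finset.mem_singleton]
            exact hfree g z hg.2
          simpa using Finset.card_le_card this
        have h5 := max_le (h4 x) (h4 y)
        have h6 : (Finset.univ.filter fun g : A => G.Adj x (g • y)).card ≤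
            3 * max (Finset.univ.filter fun g : A => g • x = x).card
              (Finset.univ.filter fun g : A => g • y = y).card := by
          convert h3
        omega
    _ = 3 * Fintype.card V := by
        rw [Finset.sum_const, Finset.card_univ, smul_eq_mul, mul_comm]

/-- groups of exponent two, arbitrary actions, the number of edges -/
theorem edges_le_three (haut : ∀ (g : A) (x y : V), G.Adj x y → G.Adj (g • x) (g • y))
    (htwin : ¬ TwinPair G) (h2 : ∀ g : A, g * g = 1) :
    G.edgeFinset.card ≤ 3 * Nat.card (MulAction.orbitRel.Quotient A V) * Fintype.card V := by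
  classical
  have h1 : Fintype.card A * (2 * G.edgeFinset.card) ≤
      3 * (2 * (Fintype.card V * (Nat.card (MulAction.orbitRel.Quotient A V) *
        Fintype.card A))) := by
    rw [← G.sum_degrees_eq_twice_card_edges, Finset.mul_sum]
    calc ∑ x : V, Fintype.card A * G.degree x
        = ∑ x : V, ∑ y : V, (Finset.univ.filter fun g : A => G.Adj x (g • y)).card :=
          Finset.sum_congr rfl fun x _ => (sum_pair G x).symm
      _ ≤ ∑ x : V, ∑ y : V, 3 * ((Finset.univ.filter fun g : A => g • x = x).card +
            (Finset.univ.filter fun g : A => g • y = y).card) := by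
          refine Finset.sum_le_sum fun x _ => Finset.sum_le_sum fun y _ => ?_
          have h6 : (Finset.univ.filter fun g : A => G.Adj x (g • y)).card ≤
              3 * max (Finset.univ.filter fun g : A => g • x = x).card
                (Finset.univ.filter fun g : A => g • y = y).card := by
            convert card_le_three G haut h2 htwin x y
          exact h6.trans (Nat.mul_le_mul_left _ (max_le (Nat.le_add_right _ _)
            (Nat.le_add_left _ _)))
      _ = 3 * (2 * (Fintype.card V * (Nat.card (MulAction.orbitRel.Quotient A V) *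
            Fintype.card A))) := by
          simp only [← Finset.mul_sum, Finset.sum_add_distrib, sum_stab, Finset.sum_const,
            Finset.card_univ, smul_eq_mul]
          ring
  have hA : 0 < Fintype.card A := Fintype.card_pos
  have h3 : Fintype.card A * G.edgeFinset.card ≤ Fintype.card A *
      (3 * Nat.card (MulAction.orbitRel.Quotient A V) * Fintype.card V) := by
    nlinarith [h1]
  exact Nat.le_of_mul_le_mul_left h3 hA

end count

end TwinSym
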